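import Pool.Agent.H4.FV.Stm

set_option autoImplicit false
set_option linter.unusedVariables false

/-! Project FV (helper4), leaf `Lf_flip`: passing to the opposite operations. -/

namespace Pool.Agent.H588.FV.Flip

open FirstOrder FirstOrder.Language
open Pool.Agent.W889.FO
open Pool.Agent.TH686.FO
open Pool.Agent.H4.VG
open Pool.Agent.H4.FV (Red Lf_flip)

/-- the opposite structure -/
@[reducible] def flp (M : LM.Structure ℕ) : LM.Structure ℕ := mkM fun x y => op M y x

theorem op_flp (M : LM.Structure ℕ) (x y : ℕ) : op (flp M) x y = op M y x := rfl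

/-- the function symbol in terms of the operation -/
theorem fm (M : LM.Structure ℕ) (v : Fin 2 → ℕ) :
    @Structure.funMap LM ℕ M 2 MF.mul v = op M (v 0) (v 1) := by
  have e : ![v 0, v 1] = v := by
    funext m
    fin_cases m <;> rfl
  unfold op
  rw [e]

/-- isomorphisms of the operations are isomorphisms of the structures -/
theorem siso_op {M N : LM.Structure ℕ} (e : ℕ ≃ ℕ)
    (h : ∀ a b, e (op M a b) = op N (e a) (e b)) : SIso M N :=
  ⟨@FirstOrder.Language.Equiv.mk LM ℕ ℕ M N e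
    (fun {n} F v => by
      cases F with
      | mul =>
        have h1 := h (v 0) (v 1)
        rw [← fm M v] at h1
        have h2 := fm N (fun i => e (v i))
        exact h1.trans h2.symm)
    (fun {n} R v => R.elim)⟩

/-- an isomorphism of structures respects the operations -/
theorem op_siso {M N : LM.Structure ℕ} (h : SIso M N) :
    ∃ e : ℕ ≃ ℕ, ∀ a b, e (op M a b) = op N (e a) (e b) := by
  obtain ⟨e⟩ := h
  refine ⟨(@FirstOrder.Language.Equiv.toEquiv LM ℕ ℕ M N e), fun a b => ?_⟩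
  have h1 := @FirstOrder.Language.Equiv.map_fun LM ℕ ℕ M N e 2 MF.mul ![a, b]
  rw [fm N] at h1
  exact h1

theorem flp_siso {M N : LM.Structure ℕ} (h : SIso M N) : SIso (flp M) (flp N) := by
  obtain ⟨e, he⟩ := op_siso h
  exact siso_op e fun a b => he b a

theorem flp_flp (M : LM.Structure ℕ) : SIso (flp (flp M)) M :=
  siso_op (Equiv.refl ℕ) fun a b => rfl

/-- translation of terms -/
theorem transT {α : Type} (t : LM.Term α) : ∃ s : LM.Term α,
    ∀ (M : LM.Structure ℕ) (v : α → ℕ),
      @Term.realize LM ℕ M α v s = @Term.realize LM ℕ (flp M) α v t := by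
  induction t with
  | var i => exact ⟨Term.var i, fun M v => rfl⟩
  | @func l F ts ih =>
    cases F with
    | mul =>
      choose s hs using ih
      refine ⟨Term.func (L := LM) (MF.mul : LM.Functions 2) ![s 1, s 0], fun M v => ?_⟩
      show @Structure.funMap LM ℕ M 2 MF.mul
        (fun i => @Term.realize LM ℕ M α v ((![s 1, s 0] : Fin 2 → LM.Term α) i)) =
          op M (@Term.realize LM ℕ (flp M) α v (ts 1)) (@Term.realize LM ℕ (flp M) α v (ts 0))
      rw [fm, ← hs, ← hs]
      rfl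

/-- translation of formulas -/
theorem transF {β : Type} {n : ℕ} (φ : LM.BoundedFormula β n) :
    ∃ ψ : LM.BoundedFormula β n, ∀ (M : LM.Structure ℕ) (c : β → ℕ) (d : Fin n → ℕ),
      @BoundedFormula.Realize LM ℕ M _ _ ψ c d ↔
        @BoundedFormula.Realize LM ℕ (flp M) _ _ φ c d := by
  induction φ with
  | falsum => exact ⟨BoundedFormula.falsum, fun M c d => Iff.rfl⟩
  | @equal n t1 t2 =>
    obtain ⟨s1, h1⟩ := transT t1
    obtain ⟨s2, h2⟩ := transT t2
    refine ⟨BoundedFormula.equal s1 s2, fun M c d => ?_⟩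
    show @Term.realize LM ℕ M _ _ s1 = @Term.realize LM ℕ M _ _ s2 ↔
      @Term.realize LM ℕ (flp M) _ _ t1 = @Term.realize LM ℕ (flp M) _ _ t2
    rw [h1, h2]
  | @rel n l R ts => exact (R : Empty).elim
  | @imp n f1 f2 h1 h2 =>
    obtain ⟨ψ1, hψ1⟩ := h1
    obtain ⟨ψ2, hψ2⟩ := h2
    exact ⟨ψ1.imp ψ2, fun M c d => imp_congr (hψ1 M c d) (hψ2 M c d)⟩
  | @all n f h =>
    obtain ⟨ψ, hψ⟩ := h
    exact ⟨ψ.all, fun M c d => forall_congr' fun a => hψ M c (Fin.snoc d a)⟩

/-- the leaf -/
theorem leaf_flip : Lf_flip := by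
  intro K hK hV
  refine hK fun T hT hM => ?_
  by_cases hex : ∃ M0 : LM.Structure ℕ, @Theory.Model LM ℕ M0 T
  swap
  · left
    exact ⟨fun _ => mkM fun _ _ => 0, fun S hS => absurd ⟨S, hS⟩ hex⟩
  obtain ⟨M0, hM0⟩ := hex
  let T' : LM.Theory := @FirstOrder.Language.completeTheory LM ℕ (flp M0)
  have hc' : T'.IsComplete := @FirstOrder.Language.completeTheory.isComplete LM ℕ (flp M0) _
  have key1 : ∀ M : LM.Structure ℕ, @Theory.Model LM ℕ M T' →
      @Theory.Model LM ℕ (flp M) T := by
    intro M hM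
    rw [ax_iff]
    intro φ hφ
    obtain ⟨ψ, hψ⟩ := transF (φ : LM.BoundedFormula Empty 0)
    have h1 : @Sentence.Realize LM ℕ (flp (flp M0)) φ :=
      ax_iff.1 ((flp_flp M0).symm.model hM0) φ hφ
    have h2 : ψ ∈ T' := (hψ (flp M0) _ _).2 h1
    exact (hψ M _ _).1 (ax_iff.1 hM ψ h2)
  have key2 : ∀ S : LM.Structure ℕ, @Theory.Model LM ℕ S T →
      @Theory.Model LM ℕ (flp S) T' := by
    intro S hS
    rw [ax_iff]
    intro χ hχ
    obtain ⟨ψ, hψ⟩ := transF (χ : LM.BoundedFormula Empty 0)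
    have h1 : @Sentence.Realize LM ℕ M0 ψ := (hψ M0 _ _).2 hχ
    have h2 : @Sentence.Realize LM ℕ S ψ := by
      rcases hT.2 ψ with h3 | h3
      · exact @Theory.ModelsBoundedFormula.realize_sentence LM T ψ h3 ℕ S hS _
      · have h4 := @Theory.ModelsBoundedFormula.realize_sentence LM T
          (Formula.not ψ) h3 ℕ M0 hM0 _
        exact absurd h1 ((@Sentence.realize_not LM ℕ M0 ψ).1 h4)
    exact (hψ S _ _).1 h2
  rcases hV T' hc' (fun M hM' => hM (flp M) (key1 M hM')) with
    ⟨g, hg⟩ | ⟨f, hf1, hf2, hf3, hf4⟩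
  · left
    refine ⟨fun n => flp (g n), fun S hS => ?_⟩
    obtain ⟨n, hn⟩ := hg (flp S) (key2 S hS)
    exact ⟨n, (flp_flp S).symm.trans (flp_siso (show SIso (flp S) (g n) from hn))⟩
  · right
    refine ⟨fun x => flp (f x), fun x => key1 _ (hf1 x), fun x y hxy => hf2 x y ?_,
      fun n R a => (R : Empty).elim, fun n F a b => ?_⟩
    · exact ((flp_flp (f x)).symm.trans (flp_siso (show SIso (flp (f x)) (flp (f y)) from hxy))).trans
        (flp_flp (f y))
    · cases F with
      | mul => exact hf4 2 MF.mul ![a 1, a 0] b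

end Pool.Agent.H588.FV.Flip
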